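import Pool.Agent.H25.PN.Defs

/-!
# Module Arith: the values of `ν · n` are dense, or `ν` is a multiple of a primitive vector of integers

`G` = range of the homomorphism `(Fin d → ℤ) →+ ℝ`, `n ↦ dot ν n`. `AddSubgroup.dense_or_cyclic G`. Dense: `Metric.dense_iff` or `Dense.exists_dist_lt`. Cyclic:
`G = AddSubgroup.closure {c} = zmultiples c`; `c ≠ 0` because `ν ≠ 0` and `ν_i ∈ G` (take `n = Pi.single i 1`); so `ν_i = k_i c` with integers `k_i`
(`AddSubgroup.mem_closure_singleton`), and `c ∈ G`: `c = ∑ n_i ν_i = c ∑ n_i k_i`.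
-/

set_option autoImplicit false

open MeasureTheory Set Filter Topology Pool.Agent.H25.Kin Pool.Agent.H48.PL

namespace Pool.Agent.H25.PN

variable {d : ℕ}

/-- the homomorphism `n ↦ ν · n` -/
private noncomputable def hom (ν : Vec d) : (Fin d → ℤ) →+ ℝ where
  toFun n := dot ν (fun i => (n i : ℝ))
  map_zero' := by
    simp [dot]
  map_add' a b := by
    simp only [dot, Pi.add_apply, Int.cast_add, mul_add, Finset.sum_add_distrib]

private lemma hom_single (ν : Vec d) (i : Fin d) : hom ν (Pi.single i 1) = ν i := by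
  classical
  show ∑ j, ν j * (((Pi.single i 1 : Fin d → ℤ) j : ℤ) : ℝ) = ν i
  rw [Finset.sum_eq_single i]
  · simp
  · intro j _ hj
    rw [Pi.single_eq_of_ne hj]
    simp
  · intro h
    exact absurd (Finset.mem_univ i) h

theorem dir_cases {ν : Vec d} (hν : ν ≠ 0) :
    (∀ s : ℝ, ∀ ε > 0, ∃ n : Fin d → ℤ, |dot ν (fun i => (n i : ℝ)) - s| < ε) ∨
      ∃ (c : ℝ) (k : Vec d), c ≠ 0 ∧ ν = c • k ∧ k ≠ 0 ∧ Prim k := by
  rcases AddSubgroup.dense_or_cyclic (hom ν).range with h | ⟨c, hc⟩
  · refine Or.inl fun s ε hε => ?_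
    obtain ⟨y, hy, hd⟩ := h.exists_dist_lt s hε
    obtain ⟨n, rfl⟩ := AddMonoidHom.mem_range.1 hy
    refine ⟨n, ?_⟩
    rw [dist_comm, Real.dist_eq] at hd
    exact hd
  · refine Or.inr ?_
    have h1 : ∀ i, ∃ m : ℤ, m • c = ν i := by
      intro i
      have h2 : ν i ∈ (hom ν).range := ⟨Pi.single i 1, hom_single ν i⟩
      rw [hc, AddSubgroup.mem_closure_singleton] at h2
      exact h2
    have hc0 : c ≠ 0 := by
      rintro rfl
      refine hν (funext fun i => ?_)
      obtain ⟨m, hm⟩ := h1 i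
      rw [← hm]
      simp
    choose m hm using h1
    have hcm : c ∈ (hom ν).range := by
      rw [hc]
      exact AddSubgroup.subset_closure rfl
    obtain ⟨n, hn⟩ := AddMonoidHom.mem_range.1 hcm
    have hνk : ν = c • (fun i => (m i : ℝ) : Vec d) := by
      funext i
      rw [← hm i]
      show m i • c = c * (m i : ℝ)
      rw [zsmul_eq_mul, mul_comm]
    refine ⟨c, fun i => (m i : ℝ), hc0, hνk, ?_, ⟨fun i => ⟨m i, rfl⟩, n, ?_⟩⟩
    · intro hk
      rw [hk, smul_zero] at hνk
      exact hν hνk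
    · have h3 : dot ν (fun i => (n i : ℝ)) = c := hn
      have h4 : dot ν (fun i => (n i : ℝ)) = c * dot (fun i => (m i : ℝ)) (fun i => (n i : ℝ)) := by
        unfold dot
        rw [Finset.mul_sum]
        refine Finset.sum_congr rfl fun i _ => ?_
        rw [hνk]
        show c * (m i : ℝ) * (n i : ℝ) = _
        ring
      rw [h3] at h4
      have h5 : c * dot (fun i => (m i : ℝ)) (fun i => (n i : ℝ)) = c * 1 := by
        rw [mul_one]
        exact h4.symm
      exact mul_left_cancel₀ hc0 h5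

end Pool.Agent.H25.PN
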