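import Pool.Agent.H25.PN.CubeG
import Pool.Agent.H15.AV.Slc

/-!
# Module Cube: total mass, energy, entropy of the pulled back slice

Let `F` be a slice (`H15.AV.Slice`: nonnegative, periodic, continuous, rapid decay), a function of `dot k x`, `w` one of the three functionals
`g ↦ ∫ g`, `∫ g nsq`, `∫ g log g`, `D(x) = w(F x)`. `w(pull F x) = D((x_e/lam²) k)` by `int_rot` (`nsq (A v) = nsq v`: `h.iso`). `D` is continuous
(`cont_int`), bounded by the decay (`wt`, `integrable_wt` in `H25/Kin/Basic.lean`; `abs_mul_log_le`), periodic, a function of `dot k x`: `cube_gen`.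
-/

set_option autoImplicit false

open MeasureTheory Set Filter Topology Pool.Agent.H25.Kin Pool.Agent.H48.PL Pool.Agent.H15.AV

namespace Pool.Agent.H25.PN

variable {d : ℕ} {e : Fin d} {lam : ℝ} {k : Vec d} {A : Vec d →ₗ[ℝ] Vec d}

/-- the common argument for the three functionals -/
private lemma cube_main (h : Rot e lam k A) (hk : Prim k) {G : Vec d → Vec d → ℝ}
    (hc : Continuous fun q : Vec d × Vec d => G q.1 q.2) (hb : ∃ C, ∀ x v, |G x v| ≤ C * wt d v)
    (hper : ∀ x v i, G (x + Pi.single i 1) v = G x v)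
    (hsym : ∀ x y v, dot k x = dot k y → G x v = G y v) :
    ∫ x in Icc (0 : Vec d) 1, ∫ v, G ((x e / lam ^ 2) • k) (A v) =
      ∫ x in Icc (0 : Vec d) 1, ∫ v, G x v := by
  obtain ⟨C, hC⟩ := hb
  have h1 : ∀ x : Vec d, ∫ v, G ((x e / lam ^ 2) • k) (A v) = ∫ v, G ((x e / lam ^ 2) • k) v :=
    fun x => int_rot h (fun v => G ((x e / lam ^ 2) • k) v)
  simp only [h1]
  have hcont : Continuous fun x : Vec d => ∫ v, G x v := by
    have h2 := cont_int (I := (univ : Set ℝ)) (G := fun _ x v => G x v)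
      (by
        have h3 : Continuous fun q : ℝ × Vec d × Vec d => G q.2.1 q.2.2 := hc.comp continuous_snd
        exact h3.continuousOn)
      fun t _ => ⟨univ, univ_mem, C, fun s _ x v => hC x v⟩
    rw [univ_prod_univ] at h2
    have h4 := continuousOn_univ.1 h2
    have h5 : Continuous fun x : Vec d => ((0 : ℝ), x) := by fun_prop
    exact h4.comp h5
  refine cube_gen h hk (D := fun x => ∫ v, G x v) hcont.measurable ⟨∫ v, C * wt d v, fun x => ?_⟩
    (fun x i => ?_) fun x y hxy => ?_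
  · rw [← Real.norm_eq_abs]
    exact norm_integral_le_of_norm_le ((integrable_wt (d := d)).const_mul C)
      (Eventually.of_forall fun v => hC x v)
  · exact integral_congr_ae (Eventually.of_forall fun v => hper x v i)
  · exact integral_congr_ae (Eventually.of_forall fun v => hsym x y v hxy)

theorem cube_mass (h : Rot e lam k A) (hk : Prim k) {F : Vec d → Vec d → ℝ} (hF : Slice F)
    (hsym : ∀ x y v, dot k x = dot k y → F x v = F y v) :
    ∫ x in Icc (0 : Vec d) 1, ∫ v, pull e lam k A F x v = ∫ x in Icc (0 : Vec d) 1, ∫ v, F x v := by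
  refine cube_main h hk hF.cont ?_ hF.per hsym
  obtain ⟨C, hC⟩ := hF.decay (d + 1)
  refine ⟨C, fun x v => ?_⟩
  have hw := pow_pos (w_pos v) (d + 1)
  unfold wt
  rw [abs_of_nonneg (hF.nonneg x v), ← div_eq_mul_inv, le_div_iff₀ hw, mul_comm]
  exact hC x v

theorem cube_energy (h : Rot e lam k A) (hk : Prim k) {F : Vec d → Vec d → ℝ} (hF : Slice F)
    (hsym : ∀ x y v, dot k x = dot k y → F x v = F y v) :
    ∫ x in Icc (0 : Vec d) 1, ∫ v, pull e lam k A F x v * nsq v = ∫ x in Icc (0 : Vec d) 1, ∫ v, F x v * nsq v := by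
  have h1 := cube_main h hk (G := fun x v => F x v * nsq v) ?_ ?_ ?_ ?_
  · rw [← h1]
    refine integral_congr_ae (Eventually.of_forall fun x => ?_)
    refine integral_congr_ae (Eventually.of_forall fun v => ?_)
    simp only [pull, h.iso]
  · exact hF.cont.mul (continuous_sq.comp continuous_snd)
  · obtain ⟨C, hC⟩ := hF.decay (2 + (d + 1))
    refine ⟨d * C, fun x v => ?_⟩
    have hw := pow_pos (w_pos v) (d + 1)
    have h2 := hC x v
    have hn : ‖v‖ ^ 2 ≤ (1 + ‖v‖) ^ 2 := by nlinarith [norm_nonneg v]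
    have hd : (0 : ℝ) ≤ d := Nat.cast_nonneg d
    have hF0 := hF.nonneg x v
    rw [abs_of_nonneg (mul_nonneg hF0 (sq_nonneg' v))]
    unfold wt
    rw [← div_eq_mul_inv, le_div_iff₀ hw]
    calc F x v * nsq v * (1 + ‖v‖) ^ (d + 1)
        ≤ F x v * (d * (1 + ‖v‖) ^ 2) * (1 + ‖v‖) ^ (d + 1) := by
          refine mul_le_mul_of_nonneg_right (mul_le_mul_of_nonneg_left ?_ hF0) hw.le
          exact (sq_le v).trans (mul_le_mul_of_nonneg_left hn hd)
      _ = d * ((1 + ‖v‖) ^ (2 + (d + 1)) * F x v) := by rw [pow_add]; ring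
      _ ≤ d * C := mul_le_mul_of_nonneg_left h2 hd
  · intro x v i
    simp only [hF.per]
  · intro x y v hxy
    simp only [hsym x y v hxy]

theorem cube_entropy (h : Rot e lam k A) (hk : Prim k) {F : Vec d → Vec d → ℝ} (hF : Slice F)
    (hsym : ∀ x y v, dot k x = dot k y → F x v = F y v) :
    ∫ x in Icc (0 : Vec d) 1, ∫ v, pull e lam k A F x v * Real.log (pull e lam k A F x v) =
      ∫ x in Icc (0 : Vec d) 1, ∫ v, F x v * Real.log (F x v) := by
  refine cube_main h hk (G := fun x v => F x v * Real.log (F x v)) ?_ ?_ ?_ ?_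
  · exact Real.continuous_mul_log.comp hF.cont
  · obtain ⟨C, hC⟩ := hF.decay (2 * (d + 1))
    refine ⟨2 * Real.sqrt C + C ^ 2, fun x v => ?_⟩
    have hw := pow_pos (w_pos v) (2 * (d + 1))
    have e0 := hF.nonneg x v
    have e1 : F x v ≤ C * ((1 + ‖v‖) ^ (2 * (d + 1)))⁻¹ := by
      rw [← div_eq_mul_inv, le_div_iff₀ hw, mul_comm]
      exact hC x v
    have hC0 : 0 ≤ C := (mul_nonneg hw.le e0).trans (hC x v)
    have hw0 := wt_nonneg v
    have hw1 : wt d v ≤ 1 := inv_le_one_of_one_le₀ (one_le_pow₀ (one_le_w v))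
    have e2 : ((1 + ‖v‖) ^ (2 * (d + 1)))⁻¹ = wt d v ^ 2 := by
      unfold wt
      rw [inv_pow, ← pow_mul, mul_comm]
    rw [e2] at e1
    have e3 : Real.sqrt (F x v) ≤ Real.sqrt C * wt d v := by
      refine (Real.sqrt_le_sqrt e1).trans (le_of_eq ?_)
      rw [Real.sqrt_mul hC0, Real.sqrt_sq hw0]
    have e4 : F x v ^ 2 ≤ C ^ 2 * wt d v := by
      have e5 : F x v ^ 2 ≤ (C * wt d v ^ 2) ^ 2 := pow_le_pow_left₀ e0 e1 2
      have e6 : wt d v ^ 4 ≤ wt d v := pow_le_of_le_one hw0 hw1 (by norm_num)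
      calc F x v ^ 2 ≤ (C * wt d v ^ 2) ^ 2 := e5
        _ = C ^ 2 * wt d v ^ 4 := by ring
        _ ≤ C ^ 2 * wt d v := mul_le_mul_of_nonneg_left e6 (sq_nonneg C)
    refine (abs_mul_log_le e0).trans ?_
    nlinarith
  · intro x v i
    simp only [hF.per]
  · intro x y v hxy
    simp only [hsym x y v hxy]

end Pool.Agent.H25.PN
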