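import Pool.Agent.H25.Kin.Defs

/-!
# Module CmpL: derivatives of a composition with a continuous linear map

* `fderiv_cmp`: chain rule, `G` is differentiable at `L p` (open set).
* `derivs_cmp`: near `p`, `fderiv (G ∘ L) q = (fderiv G (L q)).comp L`, i.e. `fderiv (G ∘ L) =ᶠ Φ ∘ (fderiv G) ∘ L` with the continuous linear map
  `Φ = (ContinuousLinearMap.compL ℝ E F ℝ).flip L`, `‖Φ M‖ ≤ ‖M‖ ‖L‖`; `fderiv G` is differentiable at `L p` (`G` is `C²` on an open set).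
-/

set_option autoImplicit false

open MeasureTheory Set Filter Topology

namespace Pool.Agent.H25.PN

open Pool.Agent.H25.Kin

variable {E F : Type*} [NormedAddCommGroup E] [NormedSpace ℝ E] [NormedAddCommGroup F] [NormedSpace ℝ F]

private lemma diffAt {G : F → ℝ} {U : Set F} (hU : IsOpen U) (hG : ContDiffOn ℝ 2 G U) {q : F} (hq : q ∈ U) :
    DifferentiableAt ℝ G q :=
  (hG.differentiableOn (by norm_num)).differentiableAt (hU.mem_nhds hq)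

private lemma fderiv_cmp' (L : E →L[ℝ] F) {G : F → ℝ} {U : Set F} (hU : IsOpen U) (hG : ContDiffOn ℝ 2 G U) {p : E} (hp : L p ∈ U) :
    fderiv ℝ (fun q => G (L q)) p = (fderiv ℝ G (L p)).comp L := by
  have h1 : HasFDerivAt G (fderiv ℝ G (L p)) (L p) := (diffAt hU hG hp).hasFDerivAt
  exact (h1.comp p L.hasFDerivAt).fderiv

theorem fderiv_cmp (L : E →L[ℝ] F) {G : F → ℝ} {U : Set F} (hU : IsOpen U) (hG : ContDiffOn ℝ 2 G U) {p : E} (hp : L p ∈ U)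
    (w : E) : fderiv ℝ (fun q => G (L q)) p w = fderiv ℝ G (L p) (L w) := by
  rw [fderiv_cmp' L hU hG hp]
  rfl

theorem derivs_cmp (L : E →L[ℝ] F) {G : F → ℝ} {U : Set F} (hU : IsOpen U) (hG : ContDiffOn ℝ 2 G U) {p : E} (hp : L p ∈ U) :
    derivs (fun q => G (L q)) p ≤ (‖L‖ + ‖L‖ ^ 2) * derivs G (L p) := by
  have hL : 0 ≤ ‖L‖ := norm_nonneg _
  set Φ : (F →L[ℝ] ℝ) →L[ℝ] (E →L[ℝ] ℝ) := (ContinuousLinearMap.compL ℝ E F ℝ).flip L with hΦ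
  have hΦa : ∀ M, Φ M = M.comp L := fun M => rfl
  have hev : fderiv ℝ (fun q => G (L q)) =ᶠ[𝓝 p] fun q => Φ (fderiv ℝ G (L q)) := by
    have h1 : ∀ᶠ q in 𝓝 p, L q ∈ U := L.continuous.continuousAt.eventually (hU.mem_nhds hp)
    filter_upwards [h1] with q hq
    rw [fderiv_cmp' L hU hG hq, hΦa]
  have h2 : ContDiffOn ℝ 1 (fderiv ℝ G) U := hG.fderiv_of_isOpen hU (by norm_num)
  have h3 : HasFDerivAt (fderiv ℝ G) (fderiv ℝ (fderiv ℝ G) (L p)) (L p) :=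
    ((h2.differentiableOn (by norm_num)).differentiableAt (hU.mem_nhds hp)).hasFDerivAt
  have h4 : HasFDerivAt (fun q => Φ (fderiv ℝ G (L q))) (Φ.comp ((fderiv ℝ (fderiv ℝ G) (L p)).comp L)) p :=
    Φ.hasFDerivAt.comp p (h3.comp p L.hasFDerivAt)
  have e2 : fderiv ℝ (fderiv ℝ (fun q => G (L q))) p = Φ.comp ((fderiv ℝ (fderiv ℝ G) (L p)).comp L) := by
    rw [hev.fderiv_eq]
    exact h4.fderiv
  have n1 : ‖fderiv ℝ (fun q => G (L q)) p‖ ≤ ‖L‖ * ‖fderiv ℝ G (L p)‖ := by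
    rw [fderiv_cmp' L hU hG hp, mul_comm]
    exact ContinuousLinearMap.opNorm_comp_le _ _
  have n2 : ‖fderiv ℝ (fderiv ℝ (fun q => G (L q))) p‖ ≤ ‖L‖ ^ 2 * ‖fderiv ℝ (fderiv ℝ G) (L p)‖ := by
    rw [e2]
    have hΦn : ‖Φ‖ ≤ ‖L‖ := by
      apply ContinuousLinearMap.opNorm_le_bound _ hL
      intro M
      rw [hΦa, mul_comm]
      exact ContinuousLinearMap.opNorm_comp_le _ _
    calc ‖Φ.comp ((fderiv ℝ (fderiv ℝ G) (L p)).comp L)‖ ≤ ‖Φ‖ * ‖(fderiv ℝ (fderiv ℝ G) (L p)).comp L‖ :=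
          ContinuousLinearMap.opNorm_comp_le _ _
      _ ≤ ‖L‖ * (‖fderiv ℝ (fderiv ℝ G) (L p)‖ * ‖L‖) :=
          mul_le_mul hΦn (ContinuousLinearMap.opNorm_comp_le _ _)
            (ContinuousLinearMap.opNorm_nonneg _) hL
      _ = _ := by ring
  unfold derivs
  have a1 : 0 ≤ ‖fderiv ℝ G (L p)‖ := norm_nonneg _
  have a2 : 0 ≤ ‖fderiv ℝ (fderiv ℝ G) (L p)‖ := ContinuousLinearMap.opNorm_nonneg _
  have a3 : 0 ≤ ‖L‖ * ‖fderiv ℝ (fderiv ℝ G) (L p)‖ := mul_nonneg hL a2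
  have a4 : 0 ≤ ‖L‖ ^ 2 * ‖fderiv ℝ G (L p)‖ := mul_nonneg (sq_nonneg _) a1
  calc ‖fderiv ℝ (fun q => G (L q)) p‖ + ‖fderiv ℝ (fderiv ℝ (fun q => G (L q))) p‖
      ≤ ‖L‖ * ‖fderiv ℝ G (L p)‖ + ‖L‖ ^ 2 * ‖fderiv ℝ (fderiv ℝ G) (L p)‖ := add_le_add n1 n2
    _ ≤ _ := by
        rw [add_mul, mul_add, mul_add]
        linarith

end Pool.Agent.H25.PN
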