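import Pool.Agent.H25.PN.Defs

/-!
# Module Lmap: the linear map `(t,x,v) ↦ (t/lam, (x_e/lam²) k, A v)`
-/

set_option autoImplicit false

open MeasureTheory Set Filter Topology Pool.Agent.H25.Kin Pool.Agent.H48.PL

namespace Pool.Agent.H25.PN

variable {d : ℕ}

/-- the linear map -/
noncomputable def Lm (e : Fin d) (lam : ℝ) (k : Vec d) (A : Vec d →ₗ[ℝ] Vec d) : (ℝ × Vec d × Vec d) →ₗ[ℝ] (ℝ × Vec d × Vec d) where
  toFun p := (p.1 / lam, (p.2.1 e / lam ^ 2) • k, A p.2.2)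
  map_add' p q := by
    refine Prod.ext ?_ (Prod.ext ?_ ?_)
    · simp [add_div]
    · simp [add_div, add_smul]
    · simp
  map_smul' c p := by
    refine Prod.ext ?_ (Prod.ext ?_ ?_)
    · simp [mul_div_assoc]
    · simp [mul_div_assoc, smul_smul]
    · simp

/-- the continuous linear map -/
noncomputable def Lc (e : Fin d) (lam : ℝ) (k : Vec d) (A : Vec d →ₗ[ℝ] Vec d) : (ℝ × Vec d × Vec d) →L[ℝ] (ℝ × Vec d × Vec d) :=
  LinearMap.toContinuousLinearMap (Lm e lam k A)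

lemma Lc_apply (e : Fin d) (lam : ℝ) (k : Vec d) (A : Vec d →ₗ[ℝ] Vec d) (t : ℝ) (x v : Vec d) :
    Lc e lam k A (t, x, v) = (t / lam, (x e / lam ^ 2) • k, A v) := rfl

lemma unc_pullT (e : Fin d) (lam : ℝ) (k : Vec d) (A : Vec d →ₗ[ℝ] Vec d) (f : ℝ → Vec d → Vec d → ℝ) :
    unc (pullT e lam k A f) = fun q => unc f (Lc e lam k A q) := rfl

end Pool.Agent.H25.PN
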