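import Pool.Agent.H25.PN.RotB
import Pool.Agent.H25.PN.Lmap
import Pool.Agent.H25.PN.CmpL

/-!
# Module SolB: decay of the derivatives of the pulled back solution

`derivs12 g t x v = derivs (unc f ∘ Lc) (t,x,v) ≤ (‖Lc‖ + ‖Lc‖²) derivs12 f (t/lam) ((x_e/lam²) k) (A v)` (`unc_pullT`, `derivs_cmp`, `f` is `C²` on the open set
`(0,T) × ...`), `(1+‖v‖)^N ≤ (d+1)^N (1+‖A v‖)^N` (`norm_rot`), `decay12` of `f` on `[T₀/lam, T₁/lam]`.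
-/

set_option autoImplicit false

open MeasureTheory Set Filter Topology Pool.Agent.H25.Kin Pool.Agent.H48.PL

namespace Pool.Agent.H25.PN

variable {d : ℕ} {e : Fin d} {lam : ℝ} {k : Vec d} {A : Vec d →ₗ[ℝ] Vec d} {T : ℝ} {Q f : ℝ → Vec d → Vec d → ℝ}

theorem solB_decay (h : Rot e lam k A) (hf : IsClassicalSol T Q f) : ∀ T₀ > 0, ∀ T₁ < lam * T, ∀ N : ℕ, ∃ C,
    ∀ t ∈ Icc T₀ T₁, ∀ x v, (1 + ‖v‖) ^ N * derivs12 (pullT e lam k A f) t x v ≤ C := by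
  intro T₀ hT₀ T₁ hT₁ N
  have hl := h.pos
  have h1 : T₁ / lam < T := by
    rw [div_lt_iff₀ hl, mul_comm]
    exact hT₁
  obtain ⟨C, hC⟩ := hf.decay12 (T₀ / lam) (div_pos hT₀ hl) (T₁ / lam) h1 N
  refine ⟨((d + 1 : ℝ) ^ N * (‖Lc e lam k A‖ + ‖Lc e lam k A‖ ^ 2)) * C, fun t ht x v => ?_⟩
  have ht1 : t / lam ∈ Icc (T₀ / lam) (T₁ / lam) :=
    ⟨div_le_div_of_nonneg_right ht.1 hl.le, div_le_div_of_nonneg_right ht.2 hl.le⟩
  have h2 := hC (t / lam) ht1 ((x e / lam ^ 2) • k) (A v)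
  have hU : IsOpen (Ioo (0 : ℝ) T ×ˢ (univ : Set (Vec d × Vec d))) := isOpen_Ioo.prod isOpen_univ
  have hp : Lc e lam k A (t, x, v) ∈ Ioo (0 : ℝ) T ×ˢ (univ : Set (Vec d × Vec d)) := by
    rw [Lc_apply]
    refine ⟨⟨?_, ?_⟩, mem_univ _⟩
    · exact lt_of_lt_of_le (div_pos hT₀ hl) ht1.1
    · exact lt_of_le_of_lt ht1.2 h1
  have h3 : derivs12 (pullT e lam k A f) t x v ≤
      (‖Lc e lam k A‖ + ‖Lc e lam k A‖ ^ 2) * derivs12 f (t / lam) ((x e / lam ^ 2) • k) (A v) := by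
    unfold derivs12
    rw [unc_pullT]
    have := derivs_cmp (Lc e lam k A) hU hf.isC2 hp
    rwa [Lc_apply] at this
  have h4 : (1 + ‖v‖) ^ N ≤ (d + 1 : ℝ) ^ N * (1 + ‖A v‖) ^ N := by
    rw [← mul_pow]
    exact pow_le_pow_left₀ (by positivity) (norm_rot h v) N
  have h5 : 0 ≤ derivs12 (pullT e lam k A f) t x v := by
    unfold derivs12 derivs
    positivity
  calc (1 + ‖v‖) ^ N * derivs12 (pullT e lam k A f) t x v
      ≤ ((d + 1 : ℝ) ^ N * (1 + ‖A v‖) ^ N) *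
        ((‖Lc e lam k A‖ + ‖Lc e lam k A‖ ^ 2) * derivs12 f (t / lam) ((x e / lam ^ 2) • k) (A v)) :=
        mul_le_mul h4 h3 h5 (by positivity)
    _ = ((d + 1 : ℝ) ^ N * (‖Lc e lam k A‖ + ‖Lc e lam k A‖ ^ 2)) *
        ((1 + ‖A v‖) ^ N * derivs12 f (t / lam) ((x e / lam ^ 2) • k) (A v)) := by ring
    _ ≤ ((d + 1 : ℝ) ^ N * (‖Lc e lam k A‖ + ‖Lc e lam k A‖ ^ 2)) * C :=
        mul_le_mul_of_nonneg_left h2 (by positivity)

end Pool.Agent.H25.PN
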