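import Pool.Agent.H25.PN.Defs
import Pool.Agent.H25.Kin.BMain

/-!
# Module ScaB: multiples of the kernel

* `kernel_scale`: constants `c₀` of `b`: take `max (μ c₀) (μ⁻¹ c₀)`, resp. `μ c₁`.
* `boltzQ_scale`: `kerB γ (μ b) ε = μ kerB γ b ε`, so `boltzCut γ (μ b) ε g v = μ boltzCut γ b ε g v` (`integral_const_mul`); the limit exists:
  `exists_hyp` (`H25/Kin/BMain.lean`) and `boltz_tendsto` (`H25/Kin/BLim.lean`); `Filter.Tendsto.limUnder_eq`.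
-/

set_option autoImplicit false

open MeasureTheory Set Filter Topology Pool.Agent.H25.Kin Pool.Agent.H48.PL

namespace Pool.Agent.H25.PN

variable {d : ℕ}

theorem kernel_scale {s : ℝ} {b : ℝ → ℝ} (hb : IsKernel d s b) {μ : ℝ} (hμ : 0 < μ) :
    IsKernel d s (fun x => μ * b x) := by
  obtain ⟨hm, ⟨c, hc, h1⟩, ⟨c', h2⟩⟩ := hb
  refine ⟨hm.const_mul μ, ⟨max (μ * c) (μ⁻¹ * c), ?_, ?_⟩, ⟨μ * c', ?_⟩⟩
  · exact lt_max_of_lt_left (mul_pos hμ hc)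
  · intro θ hθ
    obtain ⟨h3, h4⟩ := h1 θ hθ
    have hθ0 : 0 ≤ θ ^ (-((d : ℝ) - 1) - 2 * s) := Real.rpow_nonneg hθ.1.le _
    have hpos : 0 < μ⁻¹ * c := mul_pos (inv_pos.2 hμ) hc
    constructor
    · calc (max (μ * c) (μ⁻¹ * c))⁻¹ * θ ^ (-((d : ℝ) - 1) - 2 * s)
          ≤ (μ⁻¹ * c)⁻¹ * θ ^ (-((d : ℝ) - 1) - 2 * s) :=
            mul_le_mul_of_nonneg_right (inv_anti₀ hpos (le_max_right _ _)) hθ0
        _ = μ * (c⁻¹ * θ ^ (-((d : ℝ) - 1) - 2 * s)) := by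
            rw [mul_inv, inv_inv]; ring
        _ ≤ μ * b (Real.cos θ) := mul_le_mul_of_nonneg_left h3 hμ.le
    · calc μ * b (Real.cos θ) ≤ μ * (c * θ ^ (-((d : ℝ) - 1) - 2 * s)) :=
            mul_le_mul_of_nonneg_left h4 hμ.le
        _ = (μ * c) * θ ^ (-((d : ℝ) - 1) - 2 * s) := by ring
        _ ≤ max (μ * c) (μ⁻¹ * c) * θ ^ (-((d : ℝ) - 1) - 2 * s) :=
            mul_le_mul_of_nonneg_right (le_max_left _ _) hθ0
  · intro x hx
    obtain ⟨h3, h4⟩ := h2 x hx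
    exact ⟨mul_nonneg hμ.le h3, mul_le_mul_of_nonneg_left h4 hμ.le⟩

private lemma kerB_scale (γ : ℝ) (b : ℝ → ℝ) (μ ε : ℝ) (v w σ : Vec d) :
    kerB γ (fun x => μ * b x) ε v w σ = μ * kerB γ b ε v w σ := by
  unfold kerB
  split_ifs with h
  · ring
  · ring

private lemma boltzCut_scale (γ : ℝ) (b : ℝ → ℝ) (μ ε : ℝ) (g : Vec d → ℝ) (v : Vec d) :
    boltzCut γ (fun x => μ * b x) ε g v = μ * boltzCut γ b ε g v := by
  unfold boltzCut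
  simp_rw [kerB_scale, mul_assoc]
  simp_rw [integral_const_mul]

theorem boltzQ_scale (hd : 2 ≤ d) {s γ : ℝ} (hs : 0 < s) (hs1 : s < 1) (h0 : 0 ≤ γ + 2 * s) (h2 : γ + 2 * s ≤ 2)
    {b : ℝ → ℝ} (hb : IsKernel d s b) (μ : ℝ) {g : Vec d → ℝ} (hg : Nice g) (v : Vec d) :
    boltzQ γ (fun x => μ * b x) g v = μ * boltzQ γ b g v := by
  obtain ⟨C, Ca, H⟩ := exists_hyp (γ := γ) hd hs hs1 h0 h2 hb
  have h := (boltz_tendsto H hg v).const_mul μ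
  have h3 : boltzQ γ (fun x => μ * b x) g v =
      limUnder (𝓝[>] (0 : ℝ)) fun ε => μ * boltzCut γ b ε g v := by
    unfold boltzQ
    congr 1
    funext ε
    exact boltzCut_scale γ b μ ε g v
  rw [h3]
  exact h.limUnder_eq

end Pool.Agent.H25.PN
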