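import Pool.Agent.H25.PN.RotQ
import Pool.Agent.H25.PN.Lmap
import Pool.Agent.H25.PN.CmpL
import Pool.Agent.H25.PN.ScaB
import Pool.Agent.H25.Kin.Char

/-!
# Module SolC: the equation for the pulled back solution

* `fderiv_perp`: for `0 < t < T`, `dot k y = 0`: `s ↦ f t (x + s y) v` is constant (`PlaneSym`), so the derivative of `unc f` at `(t,x,v)` in the direction
  `(0, y, 0)` is `0` (`unc f` is differentiable there, `HasFDerivAt.comp_hasDerivAt` with `s ↦ (t, x + s y, v)`).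
* `transport_pull`: `transport g t x v = fderiv (unc f) p' (Lc (1,v,0))`, `p' = Lc (t,x,v)` (`fderiv_cmp`), `Lc (1,v,0) = (1/lam, (v_e/lam²) k, 0)`
  `= (1/lam) (1, A v, 0) + (0, y, 0)` with `y = (v_e/lam²) k - (1/lam) A v`, and `dot k y = v_e - v_e = 0` (`dotk_smul`, `dotk_rot`).
* `solC`: `transport f = boltzQ γ b (f t' x') (A v)` at `p'`; `boltzQ_rot` and `boltzQ_scale` (`μ = 1/lam`; the slice `g = f t' x' ∘ A` is `Nice`:
  use `boltzQ_scale` for `f t' x'`, which is `Nice` by `IsClassicalSol.nice`, then `boltzQ_rot` for the kernel `μ b`).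
-/

set_option autoImplicit false

open MeasureTheory Set Filter Topology Pool.Agent.H25.Kin Pool.Agent.H48.PL

namespace Pool.Agent.H25.PN

variable {d : ℕ} {e : Fin d} {lam : ℝ} {k : Vec d} {A : Vec d →ₗ[ℝ] Vec d} {T : ℝ} {Q f : ℝ → Vec d → Vec d → ℝ}

theorem fderiv_perp (hf : IsClassicalSol T Q f) (hP : PlaneSym k T f) {t : ℝ} (ht : t ∈ Ioo 0 T) (x v : Vec d) {y : Vec d}
    (hy : dot k y = 0) : fderiv ℝ (unc f) (t, x, v) (0, y, 0) = 0 := by
  have hda : DifferentiableAt ℝ (unc f) (t, x, v) := (hf.cda ht x v).differentiableAt (by norm_num)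
  have hc : HasDerivAt (fun s : ℝ => ((t, x + s • y, v) : ℝ × Vec d × Vec d)) (0, y, 0) 0 := by
    have hy1 : HasDerivAt (fun s : ℝ => x + s • y) y 0 := by
      simpa using ((hasDerivAt_id (0 : ℝ)).smul_const y).const_add x
    exact (hasDerivAt_const _ _).prodMk (hy1.prodMk (hasDerivAt_const _ _))
  have h1 : HasDerivAt (fun s : ℝ => unc f (t, x + s • y, v)) (fderiv ℝ (unc f) (t, x, v) (0, y, 0)) 0 := by
    have hda' : HasFDerivAt (unc f) (fderiv ℝ (unc f) (t, x, v)) ((fun s : ℝ => ((t, x + s • y, v) : ℝ × Vec d × Vec d)) 0) := by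
      simpa using hda.hasFDerivAt
    exact HasFDerivAt.comp_hasDerivAt (0 : ℝ) hda' hc
  have h2 : (fun s : ℝ => unc f (t, x + s • y, v)) = fun _ => unc f (t, x, v) := by
    funext s
    exact hP t ⟨ht.1.le, ht.2⟩ _ _ v (by rw [dot_add, dot_smul, hy]; ring)
  rw [h2] at h1
  exact h1.unique (hasDerivAt_const _ _)

lemma tdiv (h : Rot e lam k A) {t : ℝ} (ht : t ∈ Ioo 0 (lam * T)) : t / lam ∈ Ioo 0 T :=
  ⟨div_pos ht.1 h.pos, by rw [div_lt_iff₀ h.pos, mul_comm T lam]; exact ht.2⟩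

theorem transport_pull (h : Rot e lam k A) (hf : IsClassicalSol T Q f) (hP : PlaneSym k T f) {t : ℝ}
    (ht : t ∈ Ioo 0 (lam * T)) (x v : Vec d) :
    transport (pullT e lam k A f) t x v = lam⁻¹ * transport f (t / lam) ((x e / lam ^ 2) • k) (A v) := by
  have hlam := h.pos
  have hl0 : lam ≠ 0 := hlam.ne'
  have ht' : t / lam ∈ Ioo 0 T := tdiv h ht
  unfold transport
  rw [unc_pullT, fderiv_cmp (Lc e lam k A) (U := Ioo 0 T ×ˢ univ) (isOpen_Ioo.prod isOpen_univ) hf.isC2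
    (by rw [Lc_apply]; exact ⟨ht', trivial⟩), Lc_apply, Lc_apply]
  have hsplit : (((1 : ℝ) / lam, (v e / lam ^ 2) • k, A 0) : ℝ × Vec d × Vec d) =
      lam⁻¹ • ((1 : ℝ), A v, (0 : Vec d)) + (0, (v e / lam ^ 2) • k - lam⁻¹ • A v, 0) := by
    refine Prod.ext ?_ (Prod.ext ?_ ?_)
    · simp
    · simp
    · simp
  have hperp : dot k ((v e / lam ^ 2) • k - lam⁻¹ • A v) = 0 := by
    rw [dot_sub, dot_smul, dot_smul, dot_self, h.nk, dotk_rot h v]
    field_simp
    ring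
  rw [hsplit, map_add, map_smul, fderiv_perp hf hP ht' _ _ hperp, add_zero, smul_eq_mul]

theorem solC (hd : 2 ≤ d) {s γ : ℝ} (hs : 0 < s) (hs1 : s < 1) (h0 : 0 ≤ γ + 2 * s) (h2 : γ + 2 * s ≤ 2)
    {b : ℝ → ℝ} (hb : IsKernel d s b) (h : Rot e lam k A) (hf : IsBoltzmannSol γ b T f) (hP : PlaneSym k T f) :
    ∀ t ∈ Ioo 0 (lam * T), ∀ x v, transport (pullT e lam k A f) t x v =
      boltzQ γ (fun z => lam⁻¹ * b z) (pullT e lam k A f t x) v := by
  intro t ht x v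
  have ht' : t / lam ∈ Ioo 0 T := tdiv h ht
  rw [transport_pull h hf hP ht x v, hf.solves (t / lam) ht' _ _]
  have e1 : (pullT e lam k A f t x) = fun w => f (t / lam) ((x e / lam ^ 2) • k) (A w) := rfl
  rw [e1, boltzQ_rot h (by omega) γ (fun z => lam⁻¹ * b z) (f (t / lam) ((x e / lam ^ 2) • k)) v,
    boltzQ_scale hd hs hs1 h0 h2 hb lam⁻¹ (IsClassicalSol.nice hf ht' _) (A v)]

end Pool.Agent.H25.PN
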