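import Pool.Agent.H25.PN.SolA
import Pool.Agent.H25.PN.SolB
import Pool.Agent.H25.PN.SolC

/-!
# The pulled back solution (complete)
-/

set_option autoImplicit false

open MeasureTheory Set Filter Topology Pool.Agent.H25.Kin Pool.Agent.H48.PL

namespace Pool.Agent.H25.PN

variable {d : ℕ} {e : Fin d} {lam : ℝ} {k : Vec d} {A : Vec d →ₗ[ℝ] Vec d} {T : ℝ} {f : ℝ → Vec d → Vec d → ℝ}

theorem sol_pull (hd : 2 ≤ d) {s γ : ℝ} (hs : 0 < s) (hs1 : s < 1) (h0 : 0 ≤ γ + 2 * s) (h2 : γ + 2 * s ≤ 2)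
    {b : ℝ → ℝ} (hb : IsKernel d s b) (h : Rot e lam k A) (hk : Prim k) (hf : IsBoltzmannSol γ b T f)
    (hP : PlaneSym k T f) : IsBoltzmannSol γ (fun z => lam⁻¹ * b z) (lam * T) (pullT e lam k A f) where
  nonneg := solA_nonneg h hf
  periodic := solA_per h hk hf hP
  isCont := solA_cont h hf
  isC2 := solA_C2 h hf
  decay := solA_decay h hf
  decay12 := solB_decay h hf
  solves := solC hd hs hs1 h0 h2 hb h hf hP

end Pool.Agent.H25.PN
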