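import Pool.Agent.H25.PN.House
import Pool.Agent.H25.PN.Arith
import Pool.Agent.H25.PN.Sol
import Pool.Agent.H25.PN.Cube

/-!
# From the coordinate directions to all directions

`Est d γ b (Planar e)` for all kernels and coordinates implies `Est d γ b (PlaneSym ν)` for all kernels and all `ν ≠ 0`.
-/

set_option autoImplicit false

open MeasureTheory Set Filter Topology Pool.Agent.H25.Kin Pool.Agent.H48.PL Pool.Agent.H15.AV

namespace Pool.Agent.H25.PN

variable {d : ℕ} {e : Fin d} {lam : ℝ} {k : Vec d} {A : Vec d →ₗ[ℝ] Vec d}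

/-- `f` in terms of `g` -/
theorem back_eq (h : Rot e lam k A) {T : ℝ} {f : ℝ → Vec d → Vec d → ℝ} (hP : PlaneSym k T f) {t : ℝ} (ht : t ∈ Ico 0 T)
    (x v : Vec d) : f t x v = pullT e lam k A f (lam * t) (Pi.single e (dot k x)) (A v) := by
  unfold pullT pull
  rw [h.inv, Pi.single_eq_same, mul_div_cancel_left₀ _ h.pos.ne']
  exact hP t ht _ _ v (dotk_smul h _).symm

theorem mem_lam (h : Rot e lam k A) {T t : ℝ} (ht : t ∈ Ico 0 T) : lam * t ∈ Ico 0 (lam * T) :=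
  ⟨mul_nonneg h.pos.le ht.1, mul_lt_mul_of_pos_left ht.2 h.pos⟩

theorem pullT_zero (f : ℝ → Vec d → Vec d → ℝ) : pullT e lam k A f 0 = pull e lam k A (f 0) := by
  unfold pullT
  rw [zero_div]

/-- mass, energy and entropy of a slice of `f` -/
theorem back_int (h : Rot e lam k A) {T : ℝ} {f : ℝ → Vec d → Vec d → ℝ} (hP : PlaneSym k T f) {t : ℝ} (ht : t ∈ Ico 0 T)
    (x : Vec d) : (∫ v, f t x v = ∫ v, pullT e lam k A f (lam * t) (Pi.single e (dot k x)) v) ∧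
      (∫ v, f t x v * nsq v = ∫ v, pullT e lam k A f (lam * t) (Pi.single e (dot k x)) v * nsq v) ∧
      (∫ v, f t x v * Real.log (f t x v) = ∫ v, pullT e lam k A f (lam * t) (Pi.single e (dot k x)) v *
        Real.log (pullT e lam k A f (lam * t) (Pi.single e (dot k x)) v)) := by
  refine ⟨?_, ?_, ?_⟩
  · rw [← int_rot h (fun v => pullT e lam k A f (lam * t) (Pi.single e (dot k x)) v)]
    exact integral_congr_ae (Eventually.of_forall fun v => back_eq h hP ht x v)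
  · rw [← int_rot h (fun v => pullT e lam k A f (lam * t) (Pi.single e (dot k x)) v * nsq v)]
    refine integral_congr_ae (Eventually.of_forall fun v => ?_)
    show f t x v * nsq v = pullT e lam k A f (lam * t) (Pi.single e (dot k x)) (A v) * nsq (A v)
    rw [h.iso, back_eq h hP ht x v]
  · rw [← int_rot h (fun v => pullT e lam k A f (lam * t) (Pi.single e (dot k x)) v *
      Real.log (pullT e lam k A f (lam * t) (Pi.single e (dot k x)) v))]
    refine integral_congr_ae (Eventually.of_forall fun v => ?_)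
    show f t x v * Real.log (f t x v) = pullT e lam k A f (lam * t) (Pi.single e (dot k x)) (A v) *
      Real.log (pullT e lam k A f (lam * t) (Pi.single e (dot k x)) (A v))
    rw [← back_eq h hP ht x v]

/-- the case of a primitive vector -/
theorem est_prim (hd : 2 ≤ d) {s γ : ℝ} (hs : 0 < s) (hs1 : s < 1) (h0 : 0 ≤ γ + 2 * s) (h2 : γ + 2 * s ≤ 2)
    (hIn : ∀ b : ℝ → ℝ, IsKernel d s b → ∀ e : Fin d, Est d γ b (Planar e)) {b : ℝ → ℝ} (hb : IsKernel d s b)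
    {k : Vec d} (hk0 : k ≠ 0) (hk : Prim k) : Est d γ b (PlaneSym k) := by
  set e : Fin d := ⟨0, by omega⟩
  obtain ⟨lam, A, h⟩ := exists_rot e hk0
  obtain ⟨E1, E2⟩ := hIn (fun z => lam⁻¹ * b z) (kernel_scale hb (inv_pos.2 h.pos)) e
  have sol : ∀ {T : ℝ} {f : ℝ → Vec d → Vec d → ℝ}, IsBoltzmannSol γ b T f → PlaneSym k T f →
      IsBoltzmannSol γ (fun z => lam⁻¹ * b z) (lam * T) (pullT e lam k A f) := fun hf hP =>
    sol_pull hd hs hs1 h0 h2 hb h hk hf hP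
  refine ⟨fun F₀ => ⟨?_, fun hF => ?_⟩, fun p hp m hm M => ?_⟩
  · obtain ⟨U, M₀, hU⟩ := (E1 (pull e lam k A F₀)).1
    refine ⟨fun N => (d + 1 : ℝ) ^ N * U N, M₀, fun T f hf hP hf0 t ht x => ?_⟩
    obtain ⟨h3, h4, h5, h6⟩ := hU _ _ (sol hf hP) (solA_planar f _) (by rw [pullT_zero, hf0]) _ (mem_lam h ht)
      (Pi.single e (dot k x))
    obtain ⟨b1, b2, b3⟩ := back_int h hP ht x
    refine ⟨fun N v => ?_, b1 ▸ h4, b2 ▸ h5, b3 ▸ h6⟩
    have h7 := h3 N (A v)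
    rw [← back_eq h hP ht x v] at h7
    have h8 : 0 ≤ f t x v := hf.nonneg t ht x v
    have h9 : (1 + ‖v‖) ^ N ≤ ((d + 1 : ℝ) * (1 + ‖A v‖)) ^ N :=
      pow_le_pow_left₀ (w_pos v).le (norm_rot h v) N
    calc (1 + ‖v‖) ^ N * f t x v ≤ ((d + 1 : ℝ) * (1 + ‖A v‖)) ^ N * f t x v := mul_le_mul_of_nonneg_right h9 h8
      _ = (d + 1 : ℝ) ^ N * ((1 + ‖A v‖) ^ N * f t x v) := by rw [mul_pow]; ring
      _ ≤ (d + 1 : ℝ) ^ N * U N := mul_le_mul_of_nonneg_left h7 (by positivity)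
  · have hG : ∀ x, 0 < ∫ v, pull e lam k A F₀ x v := fun x => by
      unfold pull
      rw [int_rot h (fun v => F₀ ((x e / lam ^ 2) • k) v)]
      exact hF _
    obtain ⟨m₀, hm₀, M₀, hM⟩ := (E1 (pull e lam k A F₀)).2 hG
    refine ⟨m₀, hm₀, M₀, fun T f hf hP hf0 t ht x => ?_⟩
    obtain ⟨h3, h4, h5, h6⟩ := hM _ _ (sol hf hP) (solA_planar f _) (by rw [pullT_zero, hf0]) _ (mem_lam h ht)
      (Pi.single e (dot k x))
    obtain ⟨b1, b2, b3⟩ := back_int h hP ht x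
    exact ⟨b1 ▸ h3, b1 ▸ h4, b2 ▸ h5, b3 ▸ h6⟩
  · obtain ⟨K, hK0, hK⟩ := E2 p hp m hm M
    refine ⟨K, hK0, fun T f hf hP g0 g1 g2 g3 A₀ hA t ht x v => ?_⟩
    have hT : (0 : ℝ) ∈ Ico 0 T := ⟨le_rfl, ht.1.trans_lt ht.2⟩
    have hsl := sol_slice hf hT
    have hsy : ∀ x y v, dot k x = dot k y → f 0 x v = f 0 y v := hP 0 hT
    have h7 := hK _ _ (sol hf hP) (solA_planar f _)
      (by rw [pullT_zero, cube_mass h hk hsl hsy]; exact g0)
      (by rw [pullT_zero, cube_mass h hk hsl hsy]; exact g1)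
      (by rw [pullT_zero, cube_energy h hk hsl hsy]; exact g2)
      (by rw [pullT_zero, cube_entropy h hk hsl hsy]; exact g3) A₀
      (fun y w => by
        rw [pullT_zero, ← h.iso w]
        exact hA _ _) _ (mem_lam h ht) (Pi.single e (dot k x)) (A v)
    rwa [← back_eq h hP ht x v, h.iso] at h7

/-- all directions -/
theorem est_all (hd : 2 ≤ d) {s γ : ℝ} (hs : 0 < s) (hs1 : s < 1) (h0 : 0 ≤ γ + 2 * s) (h2 : γ + 2 * s ≤ 2)
    (hIn : ∀ b : ℝ → ℝ, IsKernel d s b → ∀ e : Fin d, Est d γ b (Planar e)) {b : ℝ → ℝ} (hb : IsKernel d s b)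
    {ν : Vec d} (hν : ν ≠ 0) : Est d γ b (PlaneSym ν) := by
  rcases dir_cases hν with hD | ⟨c, k, hc, hck, hk0, hk⟩
  · exact (hIn b hb ⟨0, by omega⟩).mono fun T f hf hP => dense_planar hν hD hf hP _
  · refine (est_prim hd hs hs1 h0 h2 hIn hb hk0 hk).mono fun T f hf hP t ht x y v hxy => hP t ht x y v ?_
    rw [hck, smul_dot, smul_dot, hxy]

end Pool.Agent.H25.PN
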