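import Pool.Agent.H48.PI.FinalU
import Pool.Agent.H48.PL.GBI
import Pool.Agent.H48.PI.MassI
import Pool.Agent.H25.PN.Main

/-!
# Solutions which depend on `x` only through `ν · x`: the uniform estimates, `1 + 2s < γ < 1 + 4s/(1+4s)`
-/

set_option autoImplicit false

open MeasureTheory Set Pool.Agent.H25.Kin Pool.Agent.H82.BK Pool.Agent.H93.CM Pool.Agent.H48.PL Pool.Agent.H48.PI

namespace Pool.Agent.H25.PN

/-- the coordinate theorem, in the form used as the input -/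
theorem est_coord {d : ℕ} (hd : 2 ≤ d) {s γ : ℝ} (hs : 0 < s) (h1 : 1 + 2 * s < γ)
    (h2 : γ < 1 + 4 * s / (1 + 4 * s)) {b : ℝ → ℝ} (hb : IsKernel d s b) (e : Fin d) : Est d γ b (Planar e) := by
  refine ⟨fun F₀ => ⟨?_, fun hF => planar_hydro_unif hd hs h1 h2 hb e F₀ hF⟩, fun p hp m hm M => ?_⟩
  · obtain ⟨U, hU⟩ := planar_rapid_unif hd hs h1 h2 hb e F₀
    obtain ⟨M₀, hM₀⟩ := hydro_of_U d U
    refine ⟨U, M₀, fun T f hf hpl h0 t ht x => ?_⟩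
    exact ⟨fun N v => hU T f hf hpl h0 N t ht x v, hM₀ T _ f hf (hU T f hf hpl h0) t ht x⟩
  · rcases lt_or_ge M 0 with hM | hM
    · refine ⟨0, le_rfl, fun T f hf hpl g0 g1 g2 g3 A₀ hA t ht x v => ?_⟩
      linarith
    obtain ⟨K, hK0, hK⟩ := planar_quant_unif hd hs h1 h2 hb e hp hM hm
    refine ⟨K, hK0, fun T f hf hpl g0 g1 g2 g3 A₀ hA t ht x v => ?_⟩
    have hT : (0 : ℝ) ∈ Ico 0 T := ⟨le_rfl, ht.1.trans_lt ht.2⟩
    have hsl := Pool.Agent.H15.AV.sol_slice hf hT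
    refine hK T f hf hpl (GB_of hsl g1 g2 g3) ?_ A₀ hA t ht x v
    rw [mass_iter hsl]
    exact g0

/-- all directions -/
theorem est_dir {d : ℕ} (hd : 2 ≤ d) {s γ : ℝ} (hs : 0 < s) (h1 : 1 + 2 * s < γ)
    (h2 : γ < 1 + 4 * s / (1 + 4 * s)) {b : ℝ → ℝ} (hb : IsKernel d s b) {ν : Vec d} (hν : ν ≠ 0) :
    Est d γ b (PlaneSym ν) := by
  obtain ⟨hs4, hg⟩ := region hs h1 h2
  exact est_all hd hs (by linarith) (by linarith) hg.le (fun b hb e => est_coord hd hs h1 h2 hb e) hb hν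

end Pool.Agent.H25.PN
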