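import Pool.Agent.H25.PN.Defs
import Pool.Agent.H25.Kin.Char
import Pool.Agent.H25.Kin.Per

/-!
# Module DenX: in the dense case the solution does not depend on `x`

`int_shift`: periodicity under vectors of integers (`Per.span` of `H25/Kin/Per.lean` or induction).
`dense_planar`: fix `t ∈ [0,T)`, `x`, `y`, `v`. `h(s) = f t (x + (s/nsq ν) • ν) v` is continuous (`IsClassicalSol.cont_slice` in `H25/Kin/Char.lean`). For
`s = dot ν n` (`n` integers): `dot ν (x + (s/nsq ν) • ν) = dot ν (x + n)`, so `h(s) = f t (x + n) v = f t x v = h 0`. The set `{s | h s = h 0}` is closed and dense,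
so it is everything; for `s = dot ν y - dot ν x`: `h s = f t y v`. (`Planar e` asks for less.)
-/

set_option autoImplicit false

open MeasureTheory Set Filter Topology Pool.Agent.H25.Kin Pool.Agent.H48.PL

namespace Pool.Agent.H25.PN

variable {d : ℕ}

theorem int_shift {F : Vec d → ℝ} (hF : ∀ x i, F (x + Pi.single i 1) = F x) (n : Fin d → ℤ) (x : Vec d) :
    F (x + fun i => (n i : ℝ)) = F x := by
  have h1 : (fun i => (n i : ℝ)) ∈ Submodule.span ℤ (Set.range (Pi.basisFun ℝ (Fin d))) := by
    have h2 : (fun i => (n i : ℝ)) = ∑ i, n i • (Pi.basisFun ℝ (Fin d)) i := by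
      funext j
      simp [Finset.sum_apply, Pi.single_apply]
    rw [h2]
    exact Submodule.sum_mem _ fun i _ =>
      Submodule.smul_mem _ _ (Submodule.subset_span (Set.mem_range_self i))
  rw [add_comm]
  exact Per.span (F := F) hF h1 x

theorem dense_planar {ν : Vec d} (hν : ν ≠ 0)
    (hD : ∀ s : ℝ, ∀ ε > 0, ∃ n : Fin d → ℤ, |dot ν (fun i => (n i : ℝ)) - s| < ε)
    {T : ℝ} {Q f : ℝ → Vec d → Vec d → ℝ} (hf : IsClassicalSol T Q f) (hP : PlaneSym ν T f) (e : Fin d) :
    Planar e T f := by
  intro t ht x y v _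
  have hν0 : nsq ν ≠ 0 := by
    intro h
    apply hν
    unfold nsq at h
    rw [Finset.sum_eq_zero_iff_of_nonneg (fun i _ => sq_nonneg _)] at h
    funext i
    exact pow_eq_zero_iff (two_ne_zero) |>.1 (h i (Finset.mem_univ i))
  have hdot : ∀ (x : Vec d) (s : ℝ), dot ν (x + (s / nsq ν) • ν) = dot ν x + s := by
    intro x s
    have h1 : dot ν (x + (s / nsq ν) • ν) = dot ν x + s / nsq ν * nsq ν := by
      unfold dot nsq
      rw [Finset.mul_sum, ← Finset.sum_add_distrib]
      refine Finset.sum_congr rfl fun i _ => ?_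
      simp only [Pi.add_apply, Pi.smul_apply, smul_eq_mul]
      ring
    rw [h1, div_mul_cancel₀ s hν0]
  have hadd : ∀ x w : Vec d, dot ν (x + w) = dot ν x + dot ν w := by
    intro x w
    unfold dot
    rw [← Finset.sum_add_distrib]
    exact Finset.sum_congr rfl fun i _ => mul_add _ _ _
  have hc : Continuous fun s : ℝ => f t (x + (s / nsq ν) • ν) v := by
    have h1 : Continuous fun q : Vec d × Vec d => f t q.1 q.2 := hf.cont_slice ht
    have h2 : Continuous fun s : ℝ => ((x + (s / nsq ν) • ν, v) : Vec d × Vec d) := by fun_prop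
    exact h1.comp h2
  have hint : ∀ n : Fin d → ℤ,
      f t (x + (dot ν (fun i => (n i : ℝ)) / nsq ν) • ν) v = f t x v := by
    intro n
    have h1 := hP t ht (x + (dot ν (fun i => (n i : ℝ)) / nsq ν) • ν) (x + fun i => (n i : ℝ)) v
      (by rw [hdot, hadd])
    rw [h1]
    exact int_shift (F := fun z => f t z v) (fun z i => hf.periodic t ht z v i) n x
  have hcl : IsClosed {s : ℝ | f t (x + (s / nsq ν) • ν) v = f t x v} :=
    isClosed_eq hc continuous_const
  have hall : ∀ s : ℝ, f t (x + (s / nsq ν) • ν) v = f t x v := by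
    intro s
    have h1 : s ∈ closure {s : ℝ | f t (x + (s / nsq ν) • ν) v = f t x v} := by
      rw [Metric.mem_closure_iff]
      intro ε hε
      obtain ⟨n, hn⟩ := hD s ε hε
      refine ⟨dot ν (fun i => (n i : ℝ)), hint n, ?_⟩
      rw [Real.dist_eq, abs_sub_comm]
      exact hn
    exact hcl.closure_subset h1
  have h1 := hall (dot ν y - dot ν x)
  rw [← h1]
  refine hP t ht _ _ v ?_
  rw [hdot]
  ring

end Pool.Agent.H25.PN
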