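import Pool.Agent.H25.PN.Defs

/-!
# Module RotB: first consequences of `Rot`

* `dot_rot`: polarisation (`nsq_add`, `nsq_sub` in `H25/Kin/Cap.lean`).
* `dotk_rot`: `k = lam A e_e` (`Ae`), so `dot k (A v) = lam dot (A e_e) (A v) = lam v_e`.
* `dotk_smul`: `dot k ((s/lam²) k) = (s/lam²) nsq k = s`.
* `norm_rot`: `‖v‖ ≤ len v = len (A v) ≤ √d ‖A v‖ ≤ d ‖A v‖` (`norm_le_len`, `sq_le`).
* `det_rot`: `A² = 1`, so `det A ^ 2 = 1`. `mp_rot`: as in the proof of `surf_preserving` (`H25/Kin/Cap.lean`), or `LinearIsometryEquiv`.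
* `int_rot`: `MeasurePreserving.integral_comp` with the measurable embedding (`A` is a homeomorphism, `A ∘ A = id`), or
  `integral_map` (`integral_comp_mp`-style).
-/

set_option autoImplicit false

open MeasureTheory Set Filter Topology Pool.Agent.H25.Kin Pool.Agent.H48.PL

namespace Pool.Agent.H25.PN

variable {d : ℕ} {e : Fin d} {lam : ℝ} {k : Vec d} {A : Vec d →ₗ[ℝ] Vec d}

theorem dot_rot (h : Rot e lam k A) (x y : Vec d) : dot (A x) (A y) = dot x y := by
  have h1 := h.iso (x + y)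
  rw [map_add, nsq_add, nsq_add, h.iso, h.iso] at h1
  linarith

theorem dotk_rot (h : Rot e lam k A) (v : Vec d) : dot k (A v) = lam * v e := by
  have h0 := h.pos.ne'
  have h1 := dot_rot h (Pi.single e 1) v
  rw [h.Ae, smul_dot] at h1
  have h2 : dot (Pi.single e 1 : Vec d) v = v e := by
    unfold dot
    rw [Finset.sum_eq_single e]
    · rw [Pi.single_eq_same, one_mul]
    · intro b _ hb
      rw [Pi.single_eq_of_ne hb, zero_mul]
    · intro hb
      exact absurd (Finset.mem_univ e) hb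
  rw [h2] at h1
  rw [← h1, mul_inv_cancel_left₀ h0]

theorem dotk_smul (h : Rot e lam k A) (s : ℝ) : dot k ((s / lam ^ 2) • k) = s := by
  have h0 := h.pos.ne'
  rw [dot_smul, dot_self, h.nk]
  field_simp

theorem len_rot (h : Rot e lam k A) (z : Vec d) : len (A z) = len z := by
  unfold len
  rw [h.iso]

theorem norm_rot (h : Rot e lam k A) (v : Vec d) : 1 + ‖v‖ ≤ (d + 1 : ℝ) * (1 + ‖A v‖) := by
  have h1 : ‖v‖ ≤ len v := norm_le_len v
  rw [← len_rot h v] at h1
  have hn := norm_nonneg (A v)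
  have hd0 : (0 : ℝ) ≤ d := Nat.cast_nonneg d
  have h2 : len (A v) ≤ (d + 1 : ℝ) * ‖A v‖ := by
    unfold len
    rw [Real.sqrt_le_left (by positivity)]
    refine (sq_le (A v)).trans ?_
    have h3 : (d : ℝ) ≤ (d + 1 : ℝ) ^ 2 := by nlinarith
    calc (d : ℝ) * ‖A v‖ ^ 2 ≤ (d + 1 : ℝ) ^ 2 * ‖A v‖ ^ 2 :=
          mul_le_mul_of_nonneg_right h3 (sq_nonneg _)
      _ = ((d + 1 : ℝ) * ‖A v‖) ^ 2 := by ring
  nlinarith

theorem det_rot (h : Rot e lam k A) : |LinearMap.det A| = 1 := by
  have h1 : A ∘ₗ A = LinearMap.id := LinearMap.ext fun z => h.inv z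
  have h2 : LinearMap.det A * LinearMap.det A = 1 := by
    rw [← LinearMap.det_comp, h1, LinearMap.det_id]
  have h3 : |LinearMap.det A| ^ 2 = 1 := by rw [sq_abs, pow_two, h2]
  nlinarith [abs_nonneg (LinearMap.det A)]

theorem emb_rot (h : Rot e lam k A) : MeasurableEmbedding A := by
  have hA : Continuous A := A.continuous_of_finiteDimensional
  let E : Vec d ≃ₜ Vec d :=
    { toFun := A
      invFun := A
      left_inv := h.inv
      right_inv := h.inv
      continuous_toFun := hA
      continuous_invFun := hA }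
  exact E.measurableEmbedding

theorem mp_rot (h : Rot e lam k A) : MeasurePreserving A (volume : Measure (Vec d)) volume := by
  have hdet := det_rot h
  have hAm : Measurable A := A.continuous_of_finiteDimensional.measurable
  have hdet0 : LinearMap.det A ≠ 0 := fun h' => by rw [h', abs_zero] at hdet; exact zero_ne_one hdet
  refine ⟨hAm, ?_⟩
  rw [Measure.map_linearMap_addHaar_eq_smul_addHaar _ hdet0, abs_inv, hdet, inv_one,
    ENNReal.ofReal_one, one_smul]

theorem mps_rot (h : Rot e lam k A) (hd : 1 ≤ d) : MeasurePreserving A (surf d) (surf d) :=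
  surf_preserving hd h.iso (det_rot h)

theorem int_rot (h : Rot e lam k A) (F : Vec d → ℝ) : ∫ v, F (A v) = ∫ v, F v :=
  (mp_rot h).integral_comp (emb_rot h) F

theorem ints_rot (h : Rot e lam k A) (hd : 1 ≤ d) (F : Vec d → ℝ) : ∫ σ, F (A σ) ∂(surf d) = ∫ σ, F σ ∂(surf d) :=
  (mps_rot h hd).integral_comp (emb_rot h) F

end Pool.Agent.H25.PN
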