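import Pool.Agent.H25.PN.Equi
import Pool.Agent.H25.PN.RotB
import Pool.Agent.H25.PN.DenX

/-!
# Module CubeG: integrals over the unit cube of functions of `k · x`

`Φ(s) = D((s/lam²) k)`: measurable, bounded, `Φ(s+1) = Φ(s)` (`dot k (((s+1)/lam²) k) = s + 1 = dot k ((s/lam²) k + n)`, `dotk_smul`, `Prim.one`, symmetry, `int_shift`).
`D x = Φ(dot k x)` (`dotk_smul`, symmetry), `D((x_e/lam²) k) = Φ(dot (Pi.single e 1) x)`. Both sides are `∫_0^1 Φ` by `equi`.
-/

set_option autoImplicit false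

open MeasureTheory Set Filter Topology Pool.Agent.H25.Kin Pool.Agent.H48.PL

namespace Pool.Agent.H25.PN

variable {d : ℕ} {e : Fin d} {lam : ℝ} {k : Vec d} {A : Vec d →ₗ[ℝ] Vec d}

theorem cube_gen (h : Rot e lam k A) (hk : Prim k) {D : Vec d → ℝ} (hm : Measurable D) (hb : ∃ C, ∀ x, |D x| ≤ C)
    (hper : ∀ x i, D (x + Pi.single i 1) = D x) (hsym : ∀ x y, dot k x = dot k y → D x = D y) :
    ∫ x in Icc (0 : Vec d) 1, D ((x e / lam ^ 2) • k) = ∫ x in Icc (0 : Vec d) 1, D x := by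
  have hdk := fun s : ℝ => dotk_smul h s
  have hlam : lam ^ 2 ≠ 0 := pow_ne_zero _ h.pos.ne'
  have hcont : Continuous fun s : ℝ => ((s / lam ^ 2) • k : Vec d) := by fun_prop
  have hΦm : Measurable fun s : ℝ => D ((s / lam ^ 2) • k) := hm.comp hcont.measurable
  have hΦb : ∃ C, ∀ s : ℝ, |D ((s / lam ^ 2) • k)| ≤ C := by
    obtain ⟨C, hC⟩ := hb
    exact ⟨C, fun s => hC _⟩
  obtain ⟨n, hn⟩ := hk.one
  have hadd : ∀ x y : Vec d, dot k (x + y) = dot k x + dot k y := by
    intro x y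
    unfold dot
    rw [← Finset.sum_add_distrib]
    exact Finset.sum_congr rfl fun i _ => by rw [Pi.add_apply]; ring
  have hΦp : ∀ s : ℝ, D (((s + 1) / lam ^ 2) • k) = D ((s / lam ^ 2) • k) := by
    intro s
    rw [← int_shift hper n ((s / lam ^ 2) • k)]
    apply hsym
    rw [hdk, hadd, hdk, hn]
  have hk0 : k ≠ 0 := by
    rintro rfl
    have h1 := h.nk
    have h2 : nsq (0 : Vec d) = 0 := by simp [nsq]
    rw [h2] at h1
    exact hlam h1.symm
  have h1 := equi (k := k) hk.int hk0 (Φ := fun s => D ((s / lam ^ 2) • k)) hΦm hΦb hΦp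
  have hs0 : (Pi.single e 1 : Vec d) ≠ 0 := by
    intro h0
    have := congrFun h0 e
    simp at this
  have hsi : ∀ i, ∃ m : ℤ, (Pi.single e 1 : Vec d) i = m := by
    intro i
    by_cases hi : i = e
    · subst hi
      exact ⟨1, by simp⟩
    · exact ⟨0, by simp [Pi.single_eq_of_ne hi]⟩
  have h2 := equi (k := (Pi.single e 1 : Vec d)) hsi hs0 (Φ := fun s => D ((s / lam ^ 2) • k)) hΦm hΦb hΦp
  have hde : ∀ x : Vec d, dot (Pi.single e 1 : Vec d) x = x e := by
    intro x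
    unfold dot
    rw [Finset.sum_eq_single e]
    · rw [Pi.single_eq_same, one_mul]
    · intro b _ hb
      rw [Pi.single_eq_of_ne hb, zero_mul]
    · intro hb
      exact absurd (Finset.mem_univ e) hb
  have h3 : ∀ x : Vec d, D ((dot k x / lam ^ 2) • k) = D x := fun x => hsym _ _ (hdk _)
  simp only [hde] at h2
  simp only [h3] at h1
  rw [h2, h1]

end Pool.Agent.H25.PN
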