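import Pool.Agent.H48.PL.Defs
import Pool.Agent.H15.AV.Defs
import Pool.Agent.H25.Kin.AdmisB
import Pool.Agent.H25.Kin.Cap

/-!
# Solutions of the Boltzmann equation which depend on `x` only through `ν · x` (MP_c15324_an): definitions

Reduction of an arbitrary direction `ν` to a coordinate direction.

* If the numbers `∑ n_i ν_i` (`n_i` integers) are dense in the reals, then `f` does not depend on `x` (it is periodic and
  continuous), so it depends on `x` only through the coordinate `x_e`, for every `e`.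
* Otherwise `ν = c k`, with a vector `k` of integers, `c ≠ 0`, and there are integers `n_i` with `∑ n_i k_i = 1`. Let
  `lam = |k|` (Euclidean length), `A` a linear isometry with `A² = 1` and `A e_e = k/lam`. Then
  `g(t,x,v) = f(t/lam, (x_e/lam²) k, A v)` is a classical solution on `[0, lam T)` for the kernel `b/lam`, and it depends on `x` only through
  `x_e`. Conversely `f(t,x,v) = g(lam t, (k·x) e_e, A v)`. All quantities in the estimates are the same for `f` and `g`.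
-/

set_option autoImplicit false

open MeasureTheory Set Filter Topology Pool.Agent.H25.Kin Pool.Agent.H48.PL

namespace Pool.Agent.H25.PN

variable {d : ℕ}

/-- the solution depends on `x` only through `ν · x` -/
def PlaneSym (ν : Vec d) (T : ℝ) (f : ℝ → Vec d → Vec d → ℝ) : Prop :=
  ∀ t ∈ Ico 0 T, ∀ x y v, dot ν x = dot ν y → f t x v = f t y v

/-- the uniform estimates for the solutions with the symmetry `P` -/
def Est (d : ℕ) (γ : ℝ) (b : ℝ → ℝ) (P : ℝ → (ℝ → Vec d → Vec d → ℝ) → Prop) : Prop :=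
  (∀ F₀ : Vec d → Vec d → ℝ,
      (∃ (U : ℕ → ℝ) (M₀ : ℝ), ∀ (T : ℝ) (f : ℝ → Vec d → Vec d → ℝ), IsBoltzmannSol γ b T f →
        P T f → f 0 = F₀ → ∀ t ∈ Ico 0 T, ∀ x,
          (∀ (N : ℕ) (v : Vec d), (1 + ‖v‖) ^ N * f t x v ≤ U N) ∧ (∫ v, f t x v ≤ M₀) ∧
          (∫ v, f t x v * nsq v ≤ M₀) ∧ ∫ v, f t x v * Real.log (f t x v) ≤ M₀) ∧
      ((∀ x, 0 < ∫ v, F₀ x v) → ∃ m₀ > 0, ∃ M₀ : ℝ, ∀ (T : ℝ) (f : ℝ → Vec d → Vec d → ℝ),
        IsBoltzmannSol γ b T f → P T f → f 0 = F₀ →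
          ∀ t ∈ Ico 0 T, ∀ x, HydroBounds m₀ M₀ M₀ M₀ (f t x))) ∧
    ∀ p : ℕ, (d : ℝ) + γ + 4 ≤ 2 * p → ∀ m > 0, ∀ M : ℝ, ∃ K : ℝ, 0 ≤ K ∧
      ∀ (T : ℝ) (f : ℝ → Vec d → Vec d → ℝ), IsBoltzmannSol γ b T f → P T f →
      m ≤ ∫ x in Icc (0 : Vec d) 1, ∫ v, f 0 x v →
      ∫ x in Icc (0 : Vec d) 1, ∫ v, f 0 x v ≤ M →
      ∫ x in Icc (0 : Vec d) 1, ∫ v, f 0 x v * nsq v ≤ M →
      ∫ x in Icc (0 : Vec d) 1, ∫ v, f 0 x v * Real.log (f 0 x v) ≤ M →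
      ∀ A₀ : ℝ, (∀ x v, f 0 x v * (1 + nsq v) ^ p ≤ A₀) →
      ∀ t ∈ Ico 0 T, ∀ x v, f t x v * (1 + nsq v) ^ p ≤ K * (A₀ + 1)

/-- primitive vector of integers -/
structure Prim (k : Vec d) : Prop where
  int : ∀ i, ∃ m : ℤ, k i = m
  one : ∃ n : Fin d → ℤ, dot k (fun i => (n i : ℝ)) = 1

/-- the data of the change of variables -/
structure Rot (e : Fin d) (lam : ℝ) (k : Vec d) (A : Vec d →ₗ[ℝ] Vec d) : Prop where
  pos : 0 < lam
  nk : nsq k = lam ^ 2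
  iso : ∀ z, nsq (A z) = nsq z
  inv : ∀ z, A (A z) = z
  Ae : A (Pi.single e 1) = lam⁻¹ • k

/-- the pulled back slice `G(x,v) = F((x_e/lam²) k, A v)` -/
noncomputable def pull (e : Fin d) (lam : ℝ) (k : Vec d) (A : Vec d →ₗ[ℝ] Vec d) (F : Vec d → Vec d → ℝ)
    (x v : Vec d) : ℝ := F ((x e / lam ^ 2) • k) (A v)

/-- the pulled back solution `g(t,x,v) = f(t/lam, (x_e/lam²) k, A v)` -/
noncomputable def pullT (e : Fin d) (lam : ℝ) (k : Vec d) (A : Vec d →ₗ[ℝ] Vec d)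
    (f : ℝ → Vec d → Vec d → ℝ) (t : ℝ) : Vec d → Vec d → ℝ := pull e lam k A (f (t / lam))

lemma Est.mono {γ : ℝ} {b : ℝ → ℝ} {P P' : ℝ → (ℝ → Vec d → Vec d → ℝ) → Prop}
    (h : ∀ T f, IsBoltzmannSol γ b T f → P' T f → P T f) (hE : Est d γ b P) : Est d γ b P' := by
  obtain ⟨h1, h2⟩ := hE
  refine ⟨fun F₀ => ⟨?_, fun hF => ?_⟩, fun p hp m hm M => ?_⟩
  · obtain ⟨U, M₀, hU⟩ := (h1 F₀).1
    exact ⟨U, M₀, fun T f hf hP => hU T f hf (h T f hf hP)⟩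
  · obtain ⟨m₀, hm₀, M₀, hM⟩ := (h1 F₀).2 hF
    exact ⟨m₀, hm₀, M₀, fun T f hf hP => hM T f hf (h T f hf hP)⟩
  · obtain ⟨K, hK0, hK⟩ := h2 p hp m hm M
    exact ⟨K, hK0, fun T f hf hP => hK T f hf (h T f hf hP)⟩

end Pool.Agent.H25.PN
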