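import Pool.Agent.H25.PN.Defs
import Pool.Agent.H25.Kin.Per

/-!
# Module Equi: `k · x` is equidistributed modulo 1 on the unit cube

`F(x) = Φ(dot k x)` is periodic (`k` is a vector of integers; `Φ` is 1-periodic, `dot k (Pi.single i 1) = k_i`). Put `n' = (nsq k)⁻¹ • k`, `dot k n' = 1`. By `Per.integral`
(`H25/Kin/Per.lean`), for every real `τ`: `∫_cube Φ(dot k x) dx = ∫_cube F(x + τ n') dx = ∫_cube Φ(dot k x + τ) dx`. Integrate over `τ ∈ (0,1)` and exchange
(`integral_integral_swap`, `Φ` is bounded and measurable, the cube has finite measure `1`): `= ∫_cube (∫_0^1 Φ(dot k x + τ) dτ) dx`, and the inner integral is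
`∫_0^1 Φ` (`Function.Periodic.intervalIntegral_add_eq`, `intervalIntegral.integral_comp_add_left`).
-/

set_option autoImplicit false

open MeasureTheory Set Filter Topology Pool.Agent.H25.Kin Pool.Agent.H48.PL

namespace Pool.Agent.H25.PN

variable {d : ℕ}

private theorem dot_add (k x y : Vec d) : dot k (x + y) = dot k x + dot k y := by
  unfold dot
  rw [← Finset.sum_add_distrib]
  exact Finset.sum_congr rfl fun i _ => by rw [Pi.add_apply]; ring

private theorem dot_sm (k : Vec d) (c : ℝ) (x : Vec d) : dot k (c • x) = c * dot k x := by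
  unfold dot
  rw [Finset.mul_sum]
  exact Finset.sum_congr rfl fun i _ => by rw [Pi.smul_apply, smul_eq_mul]; ring

private theorem dot_sing (k : Vec d) (i : Fin d) : dot k (Pi.single i 1) = k i := by
  unfold dot
  rw [Finset.sum_eq_single i]
  · rw [Pi.single_eq_same, mul_one]
  · intro j _ hj
    rw [Pi.single_eq_of_ne hj, mul_zero]
  · intro h
    exact absurd (Finset.mem_univ i) h

private theorem measurable_dot (k : Vec d) : Measurable (dot k) := by
  have hc : Continuous (dot k) := by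
    unfold dot
    fun_prop
  exact hc.measurable

theorem equi {k : Vec d} (hk : ∀ i, ∃ m : ℤ, k i = m) (hk0 : k ≠ 0) {Φ : ℝ → ℝ} (hm : Measurable Φ)
    (hb : ∃ C, ∀ s, |Φ s| ≤ C) (hp : ∀ s, Φ (s + 1) = Φ s) :
    ∫ x in Icc (0 : Vec d) 1, Φ (dot k x) = ∫ τ in (0 : ℝ)..1, Φ τ := by
  have hper : Function.Periodic Φ 1 := hp
  have hint : ∀ (m : ℤ) (s : ℝ), Φ (s + m) = Φ s := by
    intro m s
    have := (hper.int_mul m) s
    simpa using this
  have hP : Per (fun x : Vec d => Φ (dot k x)) := by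
    intro x i
    obtain ⟨m, hmi⟩ := hk i
    show Φ (dot k (x + Pi.single i 1)) = Φ (dot k x)
    rw [dot_add, dot_sing, hmi, hint]
  have hn : nsq k ≠ 0 := by
    intro h
    apply hk0
    funext i
    have h1 : ∑ i, k i ^ 2 = 0 := h
    rw [Finset.sum_eq_zero_iff_of_nonneg (fun j _ => sq_nonneg (k j))] at h1
    simpa using h1 i (Finset.mem_univ i)
  have hdk : dot k ((nsq k)⁻¹ • k) = 1 := by
    rw [dot_sm]
    have : dot k k = nsq k := Finset.sum_congr rfl fun i _ => (sq (k i)).symm
    rw [this, inv_mul_cancel₀ hn]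
  have hτ : ∀ τ : ℝ, ∫ x in Icc (0 : Vec d) 1, Φ (dot k x + τ) = ∫ x in Icc (0 : Vec d) 1, Φ (dot k x) := by
    intro τ
    rw [← hP.integral (τ • ((nsq k)⁻¹ • k))]
    refine integral_congr_ae (Eventually.of_forall fun x => ?_)
    show Φ (dot k x + τ) = Φ (dot k (x + τ • ((nsq k)⁻¹ • k)))
    rw [dot_add, dot_sm k τ, hdk, mul_one]
  obtain ⟨C, hC⟩ := hb
  have hvol : (volume.restrict (Icc (0 : Vec d) 1)).real univ = 1 := by
    rw [Measure.real, Measure.restrict_apply_univ, Real.volume_Icc_pi]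
    simp
  have hfin : IsFiniteMeasure (volume.restrict (Icc (0 : Vec d) 1)) :=
    ⟨by rw [Measure.restrict_apply_univ]; exact isCompact_Icc.measure_lt_top⟩
  have hin : ∀ c : ℝ, ∫ τ in Ioc (0 : ℝ) 1, Φ (c + τ) = ∫ τ in (0 : ℝ)..1, Φ τ := by
    intro c
    rw [← intervalIntegral.integral_of_le zero_le_one, intervalIntegral.integral_comp_add_left]
    have := hper.intervalIntegral_add_eq c 0
    simpa using this
  calc ∫ x in Icc (0 : Vec d) 1, Φ (dot k x)
      = ∫ τ in Ioc (0 : ℝ) 1, ∫ x in Icc (0 : Vec d) 1, Φ (dot k x + τ) := by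
        rw [integral_congr_ae (Eventually.of_forall hτ : ∀ᵐ τ ∂(volume.restrict (Ioc (0 : ℝ) 1)),
          ∫ x in Icc (0 : Vec d) 1, Φ (dot k x + τ) = ∫ x in Icc (0 : Vec d) 1, Φ (dot k x))]
        simp
    _ = ∫ x in Icc (0 : Vec d) 1, ∫ τ in Ioc (0 : ℝ) 1, Φ (dot k x + τ) := by
        refine integral_integral_swap (f := fun (τ : ℝ) (x : Vec d) => Φ (dot k x + τ)) ?_
        refine Integrable.of_bound (C := C) ?_ (Eventually.of_forall fun p => ?_)
        · refine Measurable.aestronglyMeasurable ?_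
          exact hm.comp (((measurable_dot k).comp measurable_snd).add measurable_fst)
        · exact hC _
    _ = ∫ x in Icc (0 : Vec d) 1, ∫ τ in (0 : ℝ)..1, Φ τ :=
        integral_congr_ae (Eventually.of_forall fun x => hin (dot k x))
    _ = ∫ τ in (0 : ℝ)..1, Φ τ := by
        rw [integral_const, hvol, one_smul]

end Pool.Agent.H25.PN
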