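import Pool.Agent.H25.PN.Defs

/-!
# Module House: an isometric involution which maps `e_e` to `k/|k|`

Let `lam = √(nsq k) > 0` (`H25.Kin.sq_pos_of_ne`), `u = lam⁻¹ • k`, `nsq u = 1`. If `e_e + u ≠ 0` let `w = (len (e_e+u))⁻¹ • (e_e + u)` and `A = refl w`
(`H25.Kin.refl`, `refl w z = (2 dot w z) w - z`, with `nsq_refl`, `refl_refl` in `H25/Kin/Cap.lean`): `refl w e_e = u`, since
`nsq (e_e+u) = 2 + 2 dot e_e u = 2 dot (e_e+u) e_e`. If `e_e + u = 0` then `A = -id`.
-/

set_option autoImplicit false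

open MeasureTheory Set Filter Topology Pool.Agent.H25.Kin Pool.Agent.H48.PL

namespace Pool.Agent.H25.PN

variable {d : ℕ}

theorem exists_rot (e : Fin d) {k : Vec d} (hk : k ≠ 0) : ∃ (lam : ℝ) (A : Vec d →ₗ[ℝ] Vec d), Rot e lam k A := by
  have hk2 : 0 < nsq k := sq_pos_of_ne hk
  have hl : 0 < Real.sqrt (nsq k) := Real.sqrt_pos.2 hk2
  have hl2 : Real.sqrt (nsq k) ^ 2 = nsq k := Real.sq_sqrt hk2.le
  set lam := Real.sqrt (nsq k) with hlam
  set u : Vec d := lam⁻¹ • k with hu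
  have hun : nsq u = 1 := by
    rw [hu, nsq_smul, ← hl2]
    field_simp
  have hEn : nsq (Pi.single e (1 : ℝ) : Vec d) = 1 := by
    unfold nsq
    rw [Finset.sum_eq_single e]
    · simp
    · intro b _ hb
      rw [Pi.single_eq_of_ne hb]
      simp
    · intro h
      exact absurd (Finset.mem_univ e) h
  set E : Vec d := Pi.single e (1 : ℝ) with hE
  have hnneg : ∀ z : Vec d, nsq (-z) = nsq z := by
    intro z
    unfold nsq
    exact Finset.sum_congr rfl fun i _ => by rw [Pi.neg_apply, neg_sq]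
  by_cases h : E + u = 0
  · refine ⟨lam, -LinearMap.id, hl, hl2.symm, ?_, ?_, ?_⟩
    · intro z
      rw [LinearMap.neg_apply, LinearMap.id_apply, hnneg]
    · intro z
      rw [LinearMap.neg_apply, LinearMap.neg_apply, LinearMap.id_apply, LinearMap.id_apply, neg_neg]
    · rw [LinearMap.neg_apply, LinearMap.id_apply]
      exact neg_eq_of_add_eq_zero_right h
  · have hs2 : 0 < nsq (E + u) := sq_pos_of_ne h
    have hs : 0 < Real.sqrt (nsq (E + u)) := Real.sqrt_pos.2 hs2
    have hss : Real.sqrt (nsq (E + u)) ^ 2 = nsq (E + u) := Real.sq_sqrt hs2.le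
    set s := Real.sqrt (nsq (E + u)) with hsdef
    have hw : nsq (s⁻¹ • (E + u)) = 1 := by
      rw [nsq_smul, ← hss]
      field_simp
    have hdot : 2 * dot (E + u) E = s ^ 2 := by
      rw [hss, nsq_add, hEn, hun, dot_comm (E + u) E, dot_add, dot_self, hEn]
      ring
    refine ⟨lam, refl (s⁻¹ • (E + u)), hl, hl2.symm, nsq_refl hw, refl_refl hw, ?_⟩
    rw [refl_apply, smul_dot, smul_smul]
    have h1 : 2 * (s⁻¹ * dot (E + u) E) * s⁻¹ = 1 := by
      have : 2 * (s⁻¹ * dot (E + u) E) * s⁻¹ = (2 * dot (E + u) E) * (s⁻¹ * s⁻¹) := by ring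
      rw [this, hdot]
      field_simp
    rw [h1, one_smul]
    abel

end Pool.Agent.H25.PN
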