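import Pool.Agent.H25.PN.RotB

/-!
# Module RotQ: rotation invariance of the collision operator

`post (A v) (A w) (A σ) = A (post v w σ)`, the same for `post'` (linearity, `len_rot`), `cosTh (A v) (A w) (A σ) = cosTh v w σ` (`dot_rot`), so
`kerB γ b ε (A v) (A w) (A σ) = kerB γ b ε v w σ`. In `boltzCut γ b ε g (A v)` substitute `w → A w` (`int_rot`) and `σ → A σ` (`ints_rot`). The cut off operators
agree for every `ε`, hence the limits (`limUnder`) too.
-/

set_option autoImplicit false

open MeasureTheory Set Filter Topology Pool.Agent.H25.Kin Pool.Agent.H48.PL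

namespace Pool.Agent.H25.PN

variable {d : ℕ} {e : Fin d} {lam : ℝ} {k : Vec d} {A : Vec d →ₗ[ℝ] Vec d}

private lemma post_rot (h : Rot e lam k A) (v w σ : Vec d) :
    post (A v) (A w) (A σ) = A (post v w σ) := by
  unfold post
  rw [← map_sub, len_rot h]
  simp only [map_add, map_smul]

private lemma post'_rot (h : Rot e lam k A) (v w σ : Vec d) :
    post' (A v) (A w) (A σ) = A (post' v w σ) := by
  unfold post'
  rw [← map_sub, len_rot h]
  simp only [map_sub, map_add, map_smul]

private lemma cosTh_rot (h : Rot e lam k A) (v w σ : Vec d) :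
    cosTh (A v) (A w) (A σ) = cosTh v w σ := by
  unfold cosTh
  rw [← map_sub, len_rot h, dot_rot h]

private lemma kerB_rot (h : Rot e lam k A) (γ : ℝ) (b : ℝ → ℝ) (ε : ℝ) (v w σ : Vec d) :
    kerB γ b ε (A v) (A w) (A σ) = kerB γ b ε v w σ := by
  unfold kerB
  rw [← map_sub, len_rot h, cosTh_rot h]

theorem boltzCut_rot (h : Rot e lam k A) (hd : 1 ≤ d) (γ : ℝ) (b : ℝ → ℝ) (ε : ℝ) (g : Vec d → ℝ) (v : Vec d) :
    boltzCut γ b ε (fun w => g (A w)) v = boltzCut γ b ε g (A v) := by
  unfold boltzCut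
  rw [← int_rot h (fun w : Vec d => ∫ σ : Vec d,
    kerB γ b ε (A v) w σ * (g (post' (A v) w σ) * g (post (A v) w σ) - g w * g (A v)) ∂(surf d))]
  congr 1
  funext w
  rw [← ints_rot h hd (fun σ : Vec d =>
    kerB γ b ε (A v) (A w) σ *
      (g (post' (A v) (A w) σ) * g (post (A v) (A w) σ) - g (A w) * g (A v)))]
  congr 1
  funext σ
  rw [kerB_rot h, post_rot h, post'_rot h]

theorem boltzQ_rot (h : Rot e lam k A) (hd : 1 ≤ d) (γ : ℝ) (b : ℝ → ℝ) (g : Vec d → ℝ) (v : Vec d) :
    boltzQ γ b (fun w => g (A w)) v = boltzQ γ b g (A v) := by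
  unfold boltzQ
  congr 1
  funext ε
  exact boltzCut_rot h hd γ b ε g v

end Pool.Agent.H25.PN
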