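import Pool.Agent.H25.PN.RotB
import Pool.Agent.H25.PN.Lmap
import Pool.Agent.H25.PN.DenX

/-!
# Module SolA: first properties of the pulled back solution

`g = pullT e lam k A f`, on `[0, lam T)`: `t/lam ∈ [0,T)`.
* `solA_per`: `i ≠ e`: `x_e` does not change. `i = e`: `dot k (((x_e+1)/lam²) k) = x_e + 1 = dot k ((x_e/lam²) k + n)` (`dotk_smul`, `Prim.one`), so by
  `PlaneSym` and `int_shift` the values agree.
* `solA_cont`, `solA_C2`: composition with `Lc` (`unc_pullT`).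
* `solA_decay`: `(1+‖v‖)^N ≤ (d+1)^N (1+‖A v‖)^N` (`norm_rot`), decay of `f` on `[0, T₁/lam]`.
-/

set_option autoImplicit false

open MeasureTheory Set Filter Topology Pool.Agent.H25.Kin Pool.Agent.H48.PL

namespace Pool.Agent.H25.PN

variable {d : ℕ} {e : Fin d} {lam : ℝ} {k : Vec d} {A : Vec d →ₗ[ℝ] Vec d} {T : ℝ} {Q f : ℝ → Vec d → Vec d → ℝ}

private theorem mem_div (h : Rot e lam k A) {t : ℝ} (ht : t ∈ Ico 0 (lam * T)) : t / lam ∈ Ico 0 T :=
  ⟨div_nonneg ht.1 h.pos.le, by rw [div_lt_iff₀ h.pos, mul_comm]; exact ht.2⟩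

theorem solA_nonneg (h : Rot e lam k A) (hf : IsClassicalSol T Q f) :
    ∀ t ∈ Ico 0 (lam * T), ∀ x v, 0 ≤ pullT e lam k A f t x v :=
  fun _ ht _ _ => hf.nonneg _ (mem_div h ht) _ _

theorem solA_per (h : Rot e lam k A) (hk : Prim k) (hf : IsClassicalSol T Q f) (hP : PlaneSym k T f) :
    ∀ t ∈ Ico 0 (lam * T), ∀ x v i, pullT e lam k A f t (x + Pi.single i 1) v = pullT e lam k A f t x v := by
  intro t ht x v i
  have ht' := mem_div h ht
  unfold pullT pull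
  by_cases hi : i = e
  · subst hi
    obtain ⟨n, hn⟩ := hk.one
    have h1 : (x + Pi.single i (1 : ℝ) : Vec d) i = x i + 1 := by
      rw [Pi.add_apply, Pi.single_eq_same]
    rw [h1]
    have h2 : dot k (((x i + 1) / lam ^ 2) • k) = dot k (((x i) / lam ^ 2) • k + fun j => (n j : ℝ)) := by
      rw [dotk_smul h, dot_add, dotk_smul h, hn]
    rw [hP (t / lam) ht' _ _ (A v) h2]
    exact int_shift (F := fun z => f (t / lam) z (A v)) (fun z j => hf.periodic _ ht' z (A v) j) n _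
  · have h1 : (x + Pi.single i (1 : ℝ) : Vec d) e = x e := by
      rw [Pi.add_apply, Pi.single_eq_of_ne (Ne.symm hi), add_zero]
    rw [h1]

theorem solA_cont (h : Rot e lam k A) (hf : IsClassicalSol T Q f) : ContOn (lam * T) (pullT e lam k A f) := by
  unfold ContOn
  rw [unc_pullT]
  refine hf.isCont.comp (Lc e lam k A).continuous.continuousOn ?_
  rintro ⟨t, x, v⟩ hq
  rw [Lc_apply]
  exact ⟨mem_div h hq.1, mem_univ _⟩

theorem solA_C2 (h : Rot e lam k A) (hf : IsClassicalSol T Q f) : C2On (lam * T) (pullT e lam k A f) := by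
  unfold C2On
  rw [unc_pullT]
  refine hf.isC2.comp (Lc e lam k A).contDiff.contDiffOn ?_
  rintro ⟨t, x, v⟩ hq
  rw [Lc_apply]
  refine ⟨⟨div_pos hq.1.1 h.pos, ?_⟩, mem_univ _⟩
  show t / lam < T
  rw [div_lt_iff₀ h.pos, mul_comm]
  exact hq.1.2

theorem solA_decay (h : Rot e lam k A) (hf : IsClassicalSol T Q f) : ∀ T₁ < lam * T, ∀ N : ℕ, ∃ C, ∀ t ∈ Icc 0 T₁, ∀ x v,
    (1 + ‖v‖) ^ N * pullT e lam k A f t x v ≤ C := by
  intro T₁ hT₁ N
  have h1 : T₁ / lam < T := by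
    rw [div_lt_iff₀ h.pos, mul_comm]
    exact hT₁
  obtain ⟨C, hC⟩ := hf.decay (T₁ / lam) h1 N
  refine ⟨((d : ℝ) + 1) ^ N * C, fun t ht x v => ?_⟩
  have ht' : t / lam ∈ Icc 0 (T₁ / lam) :=
    ⟨div_nonneg ht.1 h.pos.le, div_le_div_of_nonneg_right ht.2 h.pos.le⟩
  have ht2 : t / lam ∈ Ico 0 T := ⟨ht'.1, ht'.2.trans_lt h1⟩
  have h0 : 0 ≤ pullT e lam k A f t x v := hf.nonneg _ ht2 _ _
  have h2 : (1 + ‖v‖) ^ N ≤ ((d : ℝ) + 1) ^ N * (1 + ‖A v‖) ^ N := by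
    rw [← mul_pow]
    exact pow_le_pow_left₀ (by positivity) (norm_rot h v) N
  have h3 : (1 + ‖A v‖) ^ N * pullT e lam k A f t x v ≤ C := hC _ ht' _ _
  calc (1 + ‖v‖) ^ N * pullT e lam k A f t x v
      ≤ ((d : ℝ) + 1) ^ N * (1 + ‖A v‖) ^ N * pullT e lam k A f t x v := mul_le_mul_of_nonneg_right h2 h0
    _ = ((d : ℝ) + 1) ^ N * ((1 + ‖A v‖) ^ N * pullT e lam k A f t x v) := by ring
    _ ≤ _ := mul_le_mul_of_nonneg_left h3 (by positivity)

theorem solA_planar (f : ℝ → Vec d → Vec d → ℝ) (T' : ℝ) : Planar e T' (pullT e lam k A f) := by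
  intro t _ x y v hxy
  unfold pullT pull
  rw [hxy]

end Pool.Agent.H25.PN
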